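import Mathlib
import Pool.Agent.Helper41.LD.Main
import Pool.Agent.Helper41.LD2.Main
import Pool.Agent.Helper95.LD.DiophExp
import Pool.Agent.Helper34.PM.Cor
import Pool.Agent.Helper56.LDX.AE
import Pool.Agent.Helper85.LD.AL

/-!
# Nearly optimal discrepancy of powers and of multiples of powers

For a real sequence `u` let `D_N(u)` be the supremum over `0 ≤ α ≤ β ≤ 1` of
`|#{n < N : α ≤ {u n} < β} - N (β - α)|` (`N` times the discrepancy of the first `N` terms).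

(1) Powers.  For `A > 0`, all real `c_0, c_1, …` and every open set `O` that meets `(1, ∞)`, the set of the
`x ∈ O` with `D_N(A x^(n+1) + c_n) ≤ (log N)^12` for all large `N` has the Hausdorff dimension `1`.

(2) Multiples.  Let `θ > 1` satisfy `|q θ^d - p| ≥ exp (-C (d + log q)^κ)` for all integers `d, q ≥ 1` and `p`.
For all real `c_0, c_1, …` and every nonempty open set `O`, the set of the `ξ ∈ O` with
`D_N(ξ θ^n + c_n) ≤ (log N)^(2 κ + 6)` for all large `N` has the Hausdorff dimension `1`.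

(3) The condition of (2) holds for `θ = e` and `θ = π` with `κ = 3`, and for almost all `θ > 1` and all algebraic
`θ > 1` without rational powers with `κ = 1`.

Every real sequence has `D_N ≥ c log N` for infinitely many `N` (W. M. Schmidt).
-/

set_option autoImplicit false

namespace Pool.Agent.Results.MP_9056e9_nt.LowDiscrepancy

open Set MeasureTheory

/-- `N` times the discrepancy modulo one of `u 0, …, u (N - 1)` is at most `E`. -/
def DiscrepancyLe (u : ℕ → ℝ) (N : ℕ) (E : ℝ) : Prop :=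
  ∀ α β : ℝ, 0 ≤ α → α ≤ β → β ≤ 1 →
    |(((Finset.range N).filter fun n : ℕ => α ≤ Int.fract (u n) ∧ Int.fract (u n) < β).card : ℝ) - N * (β - α)| ≤ E

/-- `|q θ^d - p| ≥ exp (-C (d + log q)^κ)` for all integers `d, q ≥ 1` and `p`, with some `C > 0`. -/
def PowerMeasure (θ : ℝ) (κ : ℕ) : Prop :=
  ∃ C : ℝ, 0 < C ∧ ∀ d q : ℕ, 1 ≤ d → 1 ≤ q → ∀ p : ℤ,
    Real.exp (-(C * ((d : ℝ) + Real.log q) ^ κ)) ≤ |q * θ ^ d - p|

theorem result :
    (∀ (A : ℝ) (c : ℕ → ℝ) (O : Set ℝ), 0 < A → IsOpen O → (O ∩ Ioi 1).Nonempty →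
      dimH {x : ℝ | x ∈ O ∧ ∃ N₀ : ℕ, ∀ N ≥ N₀,
        DiscrepancyLe (fun n => A * x ^ (n + 1) + c n) N (Real.log N ^ 12)} = 1) ∧
    (∀ (θ : ℝ) (κ : ℕ) (c : ℕ → ℝ) (O : Set ℝ), 1 < θ → 1 ≤ κ → PowerMeasure θ κ → IsOpen O → O.Nonempty →
      dimH {ξ : ℝ | ξ ∈ O ∧ ∃ N₀ : ℕ, ∀ N ≥ N₀,
        DiscrepancyLe (fun n => ξ * θ ^ n + c n) N (Real.log N ^ (2 * κ + 6))} = 1) ∧
    PowerMeasure (Real.exp 1) 3 ∧ PowerMeasure Real.pi 3 ∧
    (∀ᵐ θ : ℝ, 1 < θ → PowerMeasure θ 1) ∧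
    ∀ θ : ℝ, 1 < θ → IsAlgebraic ℚ θ → (∀ d : ℕ, 1 ≤ d → Irrational (θ ^ d)) → PowerMeasure θ 1 :=
  ⟨fun _A c _O hA hO hne => Pool.Agent.Helper41.LD2.main' hA c hO hne,
    fun _θ _κ c _O hθ hκ h hO hne => Pool.Agent.Helper41.LD.main' hθ hκ h c hO hne,
    Pool.Agent.Helper95.LD.dioph_exp, Pool.Agent.Helper34.PM.dioph_pi, Pool.Agent.Helper56.LDX.dioph_ae,
    fun _θ hθ ha hirr => Pool.Agent.Helper85.LD.dioph_alg hθ ha hirr⟩

end Pool.Agent.Results.MP_9056e9_nt.LowDiscrepancy
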