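import Mathlib
import Pool.Agent.Helper41.LD2.Main
import Pool.Agent.Helper41.LD3.Main
import Pool.Agent.Helper95.LD.DiophExp
import Pool.Agent.Helper34.PM.Cor
import Pool.Agent.Helper34.PM.Main
import Pool.Agent.Helper56.LDX.AE
import Pool.Agent.Helper85.LD.AL
import Pool.Agent.Helper23.LD3.List
import Pool.Agent.Helper95.KX.Closure3

/-!
# Nearly optimal discrepancy of powers and of multiples of powers

For a real sequence `u` let `D_N(u)` be the supremum over `0 ≤ α ≤ β ≤ 1` of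
`|#{n < N : α ≤ {u n} < β} - N (β - α)|` (`N` times the discrepancy of the first `N` terms).

Let `O` be open and not empty.

(1) Powers.  For `A > 0` and all real `c_0, c_1, …` the set of the `x ∈ O` with `D_N(A x^(n+1) + c_n) ≤ (log N)^12` for all
large `N` has the Hausdorff dimension `1`, if `O` meets `(1, ∞)`.

(2) Multiples, for countably many bases at once.  Let `Θ` be a countable set of `θ > 1` with
`|q θ^d - p| ≥ exp (-C (d + log q)^κ)` for all integers `d, q ≥ 1` and `p`, `C = C(θ) > 0`.  For every function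
`c : ℝ → ℝ` the set of the `x ∈ O` such that, for every `θ ∈ Θ`, `D_N(x θ^n + c(θ^n)) ≤ (log N)^(2 κ + 6)` for all large
`N`, has the Hausdorff dimension `1`.

(3) `Θ` may be the set of all `e^r`, `π^r` (`r > 0` rational) and all algebraic `θ > 1` without rational powers `θ^d`, with
`κ = 3`.  Almost all `θ > 1` satisfy the condition with `κ = 1`, and all `α e^r, α π^r > 1` (`α` algebraic, `r ≠ 0` rational)
with some `κ`.

Every real sequence has `D_N ≥ c log N` for infinitely many `N` (W. M. Schmidt).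
-/

set_option autoImplicit false

namespace Pool.Agent.Results.MP_9056e9_nt.LowDiscrepancy

open Set MeasureTheory

/-- `N` times the discrepancy modulo one of `u 0, …, u (N - 1)` is at most `E`. -/
def DiscrepancyLe (u : ℕ → ℝ) (N : ℕ) (E : ℝ) : Prop :=
  ∀ α β : ℝ, 0 ≤ α → α ≤ β → β ≤ 1 →
    |(((Finset.range N).filter fun n : ℕ => α ≤ Int.fract (u n) ∧ Int.fract (u n) < β).card : ℝ) - N * (β - α)| ≤ E

/-- `D_N(u) ≤ (log N)^e` for all large `N` -/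
def Low (e : ℕ) (u : ℕ → ℝ) : Prop :=
  ∃ N₀ : ℕ, ∀ N ≥ N₀, DiscrepancyLe u N (Real.log N ^ e)

/-- `|q θ^d - p| ≥ exp (-C (d + log q)^κ)` for all integers `d, q ≥ 1` and `p`, with some `C > 0`. -/
def PowerMeasure (κ : ℕ) (θ : ℝ) : Prop :=
  ∃ C : ℝ, 0 < C ∧ ∀ d q : ℕ, 1 ≤ d → 1 ≤ q → ∀ p : ℤ,
    Real.exp (-(C * ((d : ℝ) + Real.log q) ^ κ)) ≤ |q * θ ^ d - p|

theorem multiples {O : Set ℝ} (hO : IsOpen O) (hne : O.Nonempty) {κ : ℕ} (hκ : 1 ≤ κ) {Θ : Set ℝ} (hΘ : Θ.Countable)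
    (h : ∀ θ ∈ Θ, 1 < θ ∧ PowerMeasure κ θ) (c : ℝ → ℝ) :
    dimH {x : ℝ | x ∈ O ∧ ∀ θ ∈ Θ, Low (2 * κ + 6) fun n => x * θ ^ n + c (θ ^ n)} = 1 := by
  rcases Θ.eq_empty_or_nonempty with h0 | h0
  · have h1 : {x : ℝ | x ∈ O ∧ ∀ θ ∈ Θ, Low (2 * κ + 6) fun n => x * θ ^ n + c (θ ^ n)} = O := by
      ext x
      rw [h0]
      simp
    rw [h1]
    obtain ⟨x, hx⟩ := hne
    simpa using Real.dimH_of_mem_nhds (hO.mem_nhds hx)
  · obtain ⟨f, hf⟩ := hΘ.exists_eq_range h0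
    have h1 := Pool.Agent.Helper41.LD3.main3' hκ f (fun i => h (f i) (by rw [hf]; exact mem_range_self i)) c hO hne
    have h2 : {x : ℝ | x ∈ O ∧ ∀ θ ∈ Θ, Low (2 * κ + 6) fun n => x * θ ^ n + c (θ ^ n)} =
        {x : ℝ | x ∈ O ∧ ∀ i, Low (2 * κ + 6) fun n => x * f i ^ n + c (f i ^ n)} := by
      ext x
      rw [hf]
      simp
    rw [h2]
    exact h1

/-- the set of all `e^r`, `π^r` (`r > 0` rational) and all algebraic `θ > 1` without rational powers -/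
def Bases : Set ℝ :=
  {θ | (∃ r : ℚ, 0 < r ∧ (θ = Real.exp r ∨ θ = Real.pi ^ (r : ℝ))) ∨
    (1 < θ ∧ IsAlgebraic ℚ θ ∧ ∀ d : ℕ, 1 ≤ d → Irrational (θ ^ d))}

theorem Bases_countable : Bases.Countable := by
  have h1 : Bases ⊆ (range fun r : ℚ => Real.exp r) ∪ (range fun r : ℚ => Real.pi ^ (r : ℝ)) ∪ {θ | IsAlgebraic ℚ θ} := by
    rintro θ (⟨r, -, h | h⟩ | ⟨-, h, -⟩)
    · exact Or.inl (Or.inl ⟨r, h.symm⟩)
    · exact Or.inl (Or.inr ⟨r, h.symm⟩)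
    · exact Or.inr h
  exact (((countable_range _).union (countable_range _)).union (Algebraic.countable ℚ ℝ)).mono h1

theorem Bases_good : ∀ θ ∈ Bases, 1 < θ ∧ PowerMeasure 3 θ := by
  rintro θ (⟨r, hr, h | h⟩ | ⟨h1, h2, h3⟩)
  · have hr' : (0 : ℝ) < r := by exact_mod_cast hr
    have e : Real.exp r = Real.exp 1 ^ (r : ℝ) := by rw [← Real.exp_mul, one_mul]
    refine ⟨by rw [h]; exact Real.one_lt_exp_iff.2 hr', ?_⟩
    rw [h, e]
    exact Pool.Agent.Helper23.LD3.dioph_rat (fun h1 h2 h3 => Pool.Agent.Helper95.LD3.dioph_root h1 h2 h3)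
      (Real.one_lt_exp_iff.2 one_pos) (by norm_num) Pool.Agent.Helper95.LD.dioph_exp hr
  · have hr' : (0 : ℝ) < r := by exact_mod_cast hr
    have hpi : 1 < Real.pi := by linarith [Real.pi_gt_three]
    refine ⟨by rw [h]; exact Real.one_lt_rpow hpi hr', ?_⟩
    rw [h]
    exact Pool.Agent.Helper23.LD3.dioph_rat (fun h1 h2 h3 => Pool.Agent.Helper95.LD3.dioph_root h1 h2 h3)
      hpi (by norm_num) Pool.Agent.Helper34.PM.dioph_pi hr
  · exact ⟨h1, Pool.Agent.Helper23.LD3.dioph_mono (by norm_num) (Pool.Agent.Helper85.LD.dioph_alg h1 h2 h3)⟩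

theorem meas_pi : Pool.Agent.Helper95.KX.SMeas Real.pi := by
  obtain ⟨A, C, hC, h⟩ := Pool.Agent.Helper34.PM.meas_pi
  exact fun k => ⟨A, C, hC, fun d H P hP hd _ hH => h d H P hP hd hH⟩

theorem result :
    (∀ O : Set ℝ, IsOpen O →
      (∀ (A : ℝ) (c : ℕ → ℝ), 0 < A → (O ∩ Ioi 1).Nonempty →
        dimH {x : ℝ | x ∈ O ∧ Low 12 fun n => A * x ^ (n + 1) + c n} = 1) ∧
      ∀ (κ : ℕ) (Θ : Set ℝ) (c : ℝ → ℝ), 1 ≤ κ → Θ.Countable → (∀ θ ∈ Θ, 1 < θ ∧ PowerMeasure κ θ) → O.Nonempty →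
        dimH {x : ℝ | x ∈ O ∧ ∀ θ ∈ Θ, Low (2 * κ + 6) fun n => x * θ ^ n + c (θ ^ n)} = 1) ∧
    (Bases.Countable ∧ (∀ θ ∈ Bases, 1 < θ ∧ PowerMeasure 3 θ) ∧ (∀ᵐ θ : ℝ, 1 < θ → PowerMeasure 1 θ) ∧
      ∀ (α : ℝ) (r : ℚ), IsAlgebraic ℤ α → α ≠ 0 → r ≠ 0 → ∀ θ : ℝ, θ = α * Real.exp r ∨ θ = α * Real.pi ^ (r : ℝ) → 1 < θ →
        ∃ κ : ℕ, 1 ≤ κ ∧ PowerMeasure κ θ) := by
  refine ⟨fun O hO => ⟨fun A c hA hne => Pool.Agent.Helper41.LD2.main' hA c hO hne,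
    fun κ Θ c hκ hΘ h hne => multiples hO hne hκ hΘ h c⟩, Bases_countable, Bases_good, Pool.Agent.Helper56.LDX.dioph_ae, ?_⟩
  rintro α r hα h0 hr θ (h | h) h1
  · rw [h] at h1 ⊢
    exact Pool.Agent.Helper23.LD3.smeas_dioph h1 (Pool.Agent.Helper95.KX.smeas_exp hα h0 hr)
  · rw [h] at h1 ⊢
    exact Pool.Agent.Helper23.LD3.smeas_dioph h1 (Pool.Agent.Helper95.KX.smeas_class Real.pi_pos
      meas_pi hα h0 hr)

end Pool.Agent.Results.MP_9056e9_nt.LowDiscrepancy
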